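import Pool.Agent.N641.VB.Stm9

set_option autoImplicit false

/-!
# Project VB (helper641): leaf RND, rings with `x ^ m = x` of arbitrary characteristic
-/

namespace Pool.Agent.N42.VB.RND

open FirstOrder FirstOrder.Language Pool.Agent.N641.VB

section defin

variable {R : Type} (iR : CommRing R)

/-- the graph of `f` is definable -/
def GF {α : Type} (f : (α → R) → R) : Prop :=
  DefP (strR iR) (fun v : α ⊕ Unit → R => f (fun a => v (Sum.inl a)) = v (Sum.inr ()))

theorem dp_congr {α : Type} {s t : (α → R) → Prop} (h : ∀ v, s v ↔ t v)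
    (hs : DefP (strR iR) s) : DefP (strR iR) t := by
  have : s = t := funext fun v => propext (h v)
  rw [← this]
  exact hs

variable (DPC : S_DPC)

include DPC

theorem gf_var {α : Type} (i : α) : GF iR (fun v : α → R => v i) :=
  (DPC LR R (strR iR)).2.2.2.2.2.2.2.1 (α ⊕ Unit) (Sum.inl i) (Sum.inr ())

theorem gf_const {α : Type} (c : R) : GF iR (fun _ : α → R => c) := by
  have h := (DPC LR R (strR iR)).2.2.2.2.2.2.2.2.1 (α ⊕ Unit) (Sum.inr ()) c
  exact dp_congr iR (fun v => ⟨fun h => h.symm, fun h => h.symm⟩) h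

theorem dp_ex {α : Type} {s : (α → R) → R → Prop}
    (hs : DefP (strR iR) (fun v : α ⊕ Unit → R => s (fun a => v (Sum.inl a)) (v (Sum.inr ())))) :
    DefP (strR iR) (fun v => ∃ x, s v x) := by
  have h := ((DPC LR R (strR iR)).2.2.2.2.2.1 α Unit _ hs).1
  refine dp_congr iR ?_ h
  intro v
  constructor
  · rintro ⟨w, hw⟩
    exact ⟨w (), hw⟩
  · rintro ⟨x, hx⟩
    exact ⟨fun _ => x, hx⟩

theorem gf_op {α : Type} (op : R → R → R) (F : LR.Functions 2)
    (hF : ∀ w : Fin 2 → R, @Structure.funMap LR R (strR iR) 2 F w = op (w 0) (w 1))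
    {f g : (α → R) → R} (hf : GF iR f) (hg : GF iR g) : GF iR (fun v => op (f v) (g v)) := by
  obtain ⟨-, hand, -, -, hre, hex, -, -, -, -, hfun, -⟩ := DPC LR R (strR iR)
  have h1 : DefP (strR iR) (fun v : (α ⊕ Unit) ⊕ Bool → R =>
      f (fun a => v (Sum.inl (Sum.inl a))) = v (Sum.inr true)) :=
    hre (α ⊕ Unit) ((α ⊕ Unit) ⊕ Bool) _
      (Sum.elim (fun a => Sum.inl (Sum.inl a)) (fun _ => Sum.inr true)) hf
  have h2 : DefP (strR iR) (fun v : (α ⊕ Unit) ⊕ Bool → R =>
      g (fun a => v (Sum.inl (Sum.inl a))) = v (Sum.inr false)) :=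
    hre (α ⊕ Unit) ((α ⊕ Unit) ⊕ Bool) _
      (Sum.elim (fun a => Sum.inl (Sum.inl a)) (fun _ => Sum.inr false)) hg
  have h3 : DefP (strR iR) (fun v : (α ⊕ Unit) ⊕ Bool → R =>
      op (v (Sum.inr true)) (v (Sum.inr false)) = v (Sum.inl (Sum.inr ()))) := by
    refine dp_congr iR ?_ (hfun ((α ⊕ Unit) ⊕ Bool) 2 F ![Sum.inr true, Sum.inr false]
      (Sum.inl (Sum.inr ())))
    intro v
    rw [hF]
    rfl
  have h4 := (hex (α ⊕ Unit) Bool _ (hand _ _ _ h1 (hand _ _ _ h2 h3))).1
  refine dp_congr iR ?_ h4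
  intro v
  constructor
  · rintro ⟨w, hw1, hw2, hw3⟩
    simp only [Sum.elim_inl, Sum.elim_inr] at hw1 hw2 hw3
    show op (f fun a => v (Sum.inl a)) (g fun a => v (Sum.inl a)) = v (Sum.inr ())
    rw [hw1, hw2, hw3]
  · intro h
    refine ⟨fun b => if b = true then f (fun a => v (Sum.inl a)) else g (fun a => v (Sum.inl a)),
      ?_, ?_, ?_⟩
    · simp
    · simp
    · simpa using h

theorem gf_add {α : Type} {f g : (α → R) → R} (hf : GF iR f) (hg : GF iR g) :
    GF iR (fun v => f v + g v) :=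
  gf_op iR DPC (fun a b => a + b) SymR.add (fun _ => rfl) hf hg

theorem gf_mul {α : Type} {f g : (α → R) → R} (hf : GF iR f) (hg : GF iR g) :
    GF iR (fun v => f v * g v) :=
  gf_op iR DPC (fun a b => a * b) SymR.mul (fun _ => rfl) hf hg

theorem gf_pow {α : Type} {f : (α → R) → R} (hf : GF iR f) (k : ℕ) :
    GF iR (fun v => f v ^ k) := by
  induction k with
  | zero =>
    have := gf_const iR DPC (α := α) 1
    simpa using this
  | succ k ih =>
    have := gf_mul iR DPC ih hf
    simpa [pow_succ] using this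

theorem dp_eq {α : Type} {f g : (α → R) → R} (hf : GF iR f) (hg : GF iR g) :
    DefP (strR iR) (fun v => f v = g v) := by
  obtain ⟨-, hand, -, -, hre, hex, -, -, -, -, hfun, -⟩ := DPC LR R (strR iR)
  have h4 := (hex α Unit _ (hand _ _ _ hf hg)).1
  refine dp_congr iR ?_ h4
  intro v
  constructor
  · rintro ⟨w, hw1, hw2⟩
    simp only [Sum.elim_inl, Sum.elim_inr] at hw1 hw2
    rw [hw1, hw2]
  · intro h
    exact ⟨fun _ => f v, rfl, h.symm⟩

/-- the set of the field `ideal` for `c = 0` -/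
theorem dp_zero (e : R) : DefP (strR iR) (fun v : Fin 1 → R => v 0 * v 0 = v 0 ∧ v 0 * e = v 0) := by
  obtain ⟨-, hand, -, -, hre, hex, -, -, -, -, hfun, -⟩ := DPC LR R (strR iR)
  have h0 := gf_var iR DPC (0 : Fin 1)
  exact hand _ _ _ (dp_eq iR DPC (gf_mul iR DPC h0 h0) h0)
    (dp_eq iR DPC (gf_mul iR DPC h0 (gf_const iR DPC e)) h0)

/-- the set of the field `ideal` for `c ≠ 0` -/
theorem dp_ideal (e : R) (N : ℕ) : DefP (strR iR) (fun v : Fin 1 → R => v 0 * v 0 = v 0 ∧
    v 0 * e = v 0 ∧ ∃ x, x ^ N * v 0 = v 0 ∧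
      ∀ k, 0 < k → k < N → ∃ y, y * (x ^ k - 1) * v 0 = v 0) := by
  obtain ⟨-, hand, -, himp, hre, hex, hall, -, -, -, hfun, hcon⟩ := DPC LR R (strR iR)
  have h0 := gf_var iR DPC (0 : Fin 1)
  refine hand _ _ _ (dp_eq iR DPC (gf_mul iR DPC h0 h0) h0) (hand _ _ _
    (dp_eq iR DPC (gf_mul iR DPC h0 (gf_const iR DPC e)) h0) ?_)
  refine dp_ex iR DPC (s := fun v x => x ^ N * v 0 = v 0 ∧
      ∀ k, 0 < k → k < N → ∃ y, y * (x ^ k - 1) * v 0 = v 0) ?_
  have h1 := gf_var iR DPC (Sum.inl 0 : Fin 1 ⊕ Unit)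
  have h2 := gf_var iR DPC (Sum.inr () : Fin 1 ⊕ Unit)
  refine hand _ _ _ (dp_eq iR DPC (gf_mul iR DPC (gf_pow iR DPC h2 N) h1) h1) ?_
  have h3 : ∀ k : Fin N, DefP (strR iR) (fun v : Fin 1 ⊕ Unit → R => 0 < k.1 →
      ∃ y, y * (v (Sum.inr ()) ^ k.1 - 1) * v (Sum.inl 0) = v (Sum.inl 0)) := by
    intro k
    refine himp _ _ _ (hcon _ _) ?_
    refine dp_ex iR DPC (s := fun v y =>
      y * (v (Sum.inr ()) ^ k.1 - 1) * v (Sum.inl 0) = v (Sum.inl 0)) ?_
    have h4 := gf_var iR DPC (Sum.inl (Sum.inl 0) : (Fin 1 ⊕ Unit) ⊕ Unit)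
    have h5 := gf_var iR DPC (Sum.inl (Sum.inr ()) : (Fin 1 ⊕ Unit) ⊕ Unit)
    have h6 := gf_var iR DPC (Sum.inr () : (Fin 1 ⊕ Unit) ⊕ Unit)
    have h7 := dp_eq iR DPC (gf_mul iR DPC (gf_mul iR DPC h6 (gf_pow iR DPC h5 k.1)) h4)
      (gf_add iR DPC h4 (gf_mul iR DPC h6 h4))
    refine dp_congr iR ?_ h7
    intro v
    constructor
    · intro h
      linear_combination h
    · intro h
      linear_combination h
  have h8 := (hall (Fin 1 ⊕ Unit) (Fin N) _ h3).1
  refine dp_congr iR ?_ h8
  intro v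
  constructor
  · intro h k hk1 hk2
    exact h ⟨k, hk2⟩ hk1
  · intro h k hk
    exact h k.1 hk k.2

end defin

section asm

variable {R : Type} [iR : CommRing R] {ι : Type} (p : ι → ℕ) [hp : ∀ i, Fact (p i).Prime] (m : ℕ)
  (e : ι → R) (Q : ι → Type) [∀ i, CommRing (Q i)] (π : ∀ i, R →+* Q i)

/-- the lift of `y` in the component `i` -/
noncomputable def sg (hs : ∀ i, Function.Surjective (π i)) (i : ι) (y : Q i) : R :=
  e i * Classical.choose (hs i y)

variable (hs : ∀ i, Function.Surjective (π i))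
  (hk : ∀ i x, π i x = 0 ↔ e i * x = 0) (he : ∀ i, e i * e i = e i)

include hk he in
theorem pi_e (i : ι) : π i (e i) = 1 := by
  have h : π i (e i - 1) = 0 := by
    rw [hk, mul_sub, he, mul_one, sub_self]
  rw [map_sub, map_one, sub_eq_zero] at h
  exact h

include hk in
theorem e_eq (i : ι) (x y : R) (h : π i x = π i y) : e i * x = e i * y := by
  have h1 : π i (x - y) = 0 := by rw [map_sub, h, sub_self]
  rw [hk] at h1
  linear_combination h1

include hk in
theorem sg_pi (i : ι) (x : R) : sg e Q π hs i (π i x) = e i * x :=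
  e_eq e Q π hk i _ _ (Classical.choose_spec (hs i (π i x)))

include hk he in
theorem pi_sg (i : ι) (y : Q i) : π i (sg e Q π hs i y) = y := by
  unfold sg
  rw [map_mul, pi_e e Q π hk he, one_mul]
  exact Classical.choose_spec (hs i y)

include hk he in
theorem sg_mul (i : ι) (y z : Q i) :
    sg e Q π hs i (y * z) = sg e Q π hs i y * sg e Q π hs i z := by
  obtain ⟨a, rfl⟩ := hs i y
  obtain ⟨b, rfl⟩ := hs i z
  rw [← map_mul, sg_pi e Q π hs hk, sg_pi e Q π hs hk, sg_pi e Q π hs hk]
  linear_combination (- a * b) * he i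

include hk in
theorem sg_add (i : ι) (y z : Q i) :
    sg e Q π hs i (y + z) = sg e Q π hs i y + sg e Q π hs i z := by
  obtain ⟨a, rfl⟩ := hs i y
  obtain ⟨b, rfl⟩ := hs i z
  rw [← map_add, sg_pi e Q π hs hk, sg_pi e Q π hs hk, sg_pi e Q π hs hk]
  ring

include hk in
theorem sg_pmul (i : ι) (b : R) (z : Q i) :
    sg e Q π hs i (π i b * z) = b * sg e Q π hs i z := by
  obtain ⟨a, rfl⟩ := hs i z
  rw [← map_mul, sg_pi e Q π hs hk, sg_pi e Q π hs hk]
  ring

include hk in
theorem sg_zero (i : ι) : sg e Q π hs i 0 = 0 := by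
  rw [← map_zero (π i), sg_pi e Q π hs hk, mul_zero]

theorem e_sg (he : ∀ i, e i * e i = e i) (i : ι) (y : Q i) :
    e i * sg e Q π hs i y = sg e Q π hs i y := by
  unfold sg
  rw [← mul_assoc, he]

theorem sg_orth (ho : ∀ i j, i ≠ j → e i * e j = 0) (i j : ι) (hij : i ≠ j) (y : Q i) (z : Q j) :
    sg e Q π hs i y * sg e Q π hs j z = 0 := by
  unfold sg
  linear_combination (Classical.choose (hs i y) * Classical.choose (hs j z)) * ho i j hij

variable {p m}

theorem kc_mul {q : ℕ} [Fact q.Prime] (c d : KC q m) : ∃ e : KC q m, e.1 = c.1 * d.1 :=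
  ⟨⟨c.1 * d.1, by rw [mul_pow, c.2, d.2]⟩, rfl⟩

/-- idempotents in one component -/
theorem idp_one {q : ℕ} [Fact q.Prime] {S : Type} [CommRing S] {ev : KC q m → S → S}
    (hE : EvD q m ev) (x : S) :
    x * x = x ↔ ∀ c : KC q m, c.1 ≠ 0 → c.1 ≠ 1 → ev c x = 0 := by
  constructor
  · intro hx c h0 h1
    obtain ⟨d, hd⟩ := kc_mul c c
    have hne : c ≠ d := by
      rintro rfl
      rcases mul_eq_left₀ h0 |>.1 hd.symm with h
      exact h1 h
    have h2 := hE.mul c c d x x hd
    rw [hx, hE.idem, hE.orth c d x hne] at h2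
    exact h2.symm
  · intro hx
    apply hE.inj
    -- the key: for every `c` : `ev c x * (x * x - x) = 0`
    have key : ∀ c, ev c x * ev c (x * x) = ev c x := by
      intro c
      by_cases h0 : c.1 = 0
      · have h2 := hE.mul c c c x x (by rw [h0, mul_zero])
        rw [hE.idem] at h2
        exact h2
      · by_cases h1 : c.1 = 1
        · have h2 := hE.mul c c c x x (by rw [h1, mul_one])
          rw [hE.idem] at h2
          exact h2
        · rw [hx c h0 h1, zero_mul]
    intro c
    have h3 : ev c (x * x) - ev c (x * x) * ev c x = 0 := by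
      apply hE.total x
      intro d
      by_cases hcd : c = d
      · subst hcd
        have h4 := hE.idem c x
        linear_combination (- ev c (x * x)) * h4
      · have h4 := key d
        have h5 := hE.orth c d (x * x) hcd
        have h6 := hE.orth c d x hcd
        have h7 : ev c (x * x) * ev d x = 0 := by
          linear_combination (ev d x) * h5 - (ev c (x * x)) * h4
        linear_combination h7 - (ev c (x * x)) * h6
    linear_combination h3 + key c

end asm

section fin

variable {R : Type} [iR : CommRing R] {ι : Type} (p : ι → ℕ) [hp : ∀ i, Fact (p i).Prime] (m : ℕ)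
  (e : ι → R) (Q : ι → Type) [∀ i, CommRing (Q i)] (π : ∀ i, R →+* Q i)

/-- the assembly -/
theorem asm (DPC : S_DPC) (hm : 2 ≤ m)
    (hs : ∀ i, Function.Surjective (π i))
    (hk : ∀ i x, π i x = 0 ↔ e i * x = 0) (he : ∀ i, e i * e i = e i)
    (ho : ∀ i j, i ≠ j → e i * e j = 0) (ht : ∀ x, (∀ i, e i * x = 0) → x = 0)
    (E : ∀ i, KC (p i) m → Q i → Q i) (hE : ∀ i, EvD (p i) m (E i)) :
    EvG (R := R) (C := Σ i, KC (p i) m)
      (fun x y z => ∃ i, ∃ c d f : KC (p i) m, x = ⟨i, c⟩ ∧ y = ⟨i, d⟩ ∧ z = ⟨i, f⟩ ∧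
        f.1 = c.1 + d.1)
      (fun x y z => ∃ i, ∃ c d f : KC (p i) m, x = ⟨i, c⟩ ∧ y = ⟨i, d⟩ ∧ z = ⟨i, f⟩ ∧
        f.1 = c.1 * d.1)
      {x | x.2.1 = 0} {x | x.2.1 = 1}
      (fun x r => sg e Q π hs x.1 (E x.1 x.2 (π x.1 r))) := by
  refine ⟨?_, ?_, ?_, ?_, ?_, ?_, ?_, ?_, ?_, ?_, ?_, ?_⟩
  · rintro ⟨i, c⟩ x
    show sg e Q π hs i _ * sg e Q π hs i _ = sg e Q π hs i _
    rw [← sg_mul e Q π hs hk he, (hE i).idem]
  · rintro ⟨i, c⟩ ⟨j, d⟩ x hne
    show sg e Q π hs i _ * sg e Q π hs j _ = 0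
    by_cases hij : i = j
    · subst hij
      have hcd : c ≠ d := by
        rintro rfl
        exact hne rfl
      rw [← sg_mul e Q π hs hk he, (hE i).orth c d _ hcd, sg_zero e Q π hs hk]
    · exact sg_orth e Q π hs ho i j hij _ _
  · intro x b hb
    apply ht
    intro i
    rw [← hk]
    apply (hE i).total (π i x)
    intro c
    have h := congrArg (π i) (hb ⟨i, c⟩)
    change π i (b * sg e Q π hs i (E i c (π i x))) = π i 0 at h
    rw [map_mul, pi_sg e Q π hs hk he, map_zero] at h
    exact h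
  · intro x y h
    have h0 : x - y = 0 := by
      apply ht
      intro i
      rw [← hk, map_sub, sub_eq_zero]
      apply (hE i).inj
      intro c
      have h := congrArg (π i) (h ⟨i, c⟩)
      change π i (sg e Q π hs i (E i c (π i x))) = π i (sg e Q π hs i (E i c (π i y))) at h
      rw [pi_sg e Q π hs hk he, pi_sg e Q π hs hk he] at h
      exact h
    exact sub_eq_zero.1 h0
  · rintro b x y ⟨i, c⟩ hb
    show sg e Q π hs i (E i c (π i (b * x + (1 - b) * y))) =
      b * sg e Q π hs i (E i c (π i x)) + (1 - b) * sg e Q π hs i (E i c (π i y))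
    have hb' : π i b * π i b = π i b := by rw [← map_mul, hb]
    have h1 : π i (b * x + (1 - b) * y) = π i b * π i x + (1 - π i b) * π i y := by
      rw [map_add, map_mul, map_mul, map_sub, map_one]
    have h2 : (1 : Q i) - π i b = π i (1 - b) := by rw [map_sub, map_one]
    rw [h1, (hE i).glue _ _ _ _ hb', sg_add e Q π hs hk, sg_pmul e Q π hs hk, h2,
      sg_pmul e Q π hs hk]
  · rintro c d f x y ⟨i, c', d', f', rfl, rfl, rfl, h⟩
    show sg e Q π hs i _ * sg e Q π hs i _ * sg e Q π hs i _ = sg e Q π hs i _ * sg e Q π hs i _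
    rw [← sg_mul e Q π hs hk he, ← sg_mul e Q π hs hk he, map_add, (hE i).add c' d' f' _ _ h]
  · rintro ⟨i, c⟩ ⟨j, d⟩ x y h
    show sg e Q π hs i _ * sg e Q π hs j _ = 0
    by_cases hij : i = j
    · subst hij
      rw [← sg_mul e Q π hs hk he, (hE i).add' c d, sg_zero e Q π hs hk]
      intro f hf
      exact h ⟨i, f⟩ ⟨i, c, d, f, rfl, rfl, rfl, hf⟩
    · exact sg_orth e Q π hs ho i j hij _ _
  · rintro c d f x y ⟨i, c', d', f', rfl, rfl, rfl, h⟩
    show sg e Q π hs i _ * sg e Q π hs i _ * sg e Q π hs i _ = sg e Q π hs i _ * sg e Q π hs i _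
    rw [← sg_mul e Q π hs hk he, ← sg_mul e Q π hs hk he, map_mul, (hE i).mul c' d' f' _ _ h]
  · rintro ⟨i, c⟩ ⟨j, d⟩ x y h
    show sg e Q π hs i _ * sg e Q π hs j _ = 0
    by_cases hij : i = j
    · subst hij
      obtain ⟨f, hf⟩ := kc_mul c d
      exact absurd ⟨i, c, d, f, rfl, rfl, rfl, hf⟩ (h ⟨i, f⟩)
    · exact sg_orth e Q π hs ho i j hij _ _
  · intro x
    constructor
    · rintro hx ⟨i, c⟩ h0 h1
      show sg e Q π hs i (E i c (π i x)) = 0
      have hx' : π i x * π i x = π i x := by rw [← map_mul, hx]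
      rw [(idp_one (hE i) (π i x)).1 hx' c h0 h1, sg_zero e Q π hs hk]
    · intro h
      have h0 : x * x - x = 0 := by
        apply ht
        intro i
        rw [← hk, map_sub, sub_eq_zero, map_mul, idp_one (hE i)]
        intro c h0 h1
        have h2 := congrArg (π i) (h ⟨i, c⟩ h0 h1)
        change π i (sg e Q π hs i (E i c (π i x))) = π i 0 at h2
        rw [pi_sg e Q π hs hk he, map_zero] at h2
        exact h2
      exact sub_eq_zero.1 h0
  · intro x y hx
    constructor
    · intro h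
      have h0 : x * y - x = 0 := by
        apply ht
        intro i
        have h1 := h ⟨i, ⟨1, one_pow m⟩⟩ rfl
        change sg e Q π hs i (E i ⟨1, one_pow m⟩ (π i x)) * y =
          sg e Q π hs i (E i ⟨1, one_pow m⟩ (π i x)) at h1
        rw [(hE i).one (π i x) ⟨1, one_pow m⟩ rfl (by rw [← map_mul, hx]),
          sg_pi e Q π hs hk] at h1
        linear_combination h1
      exact sub_eq_zero.1 h0
    · rintro h ⟨i, c⟩ hc
      change c.1 = 1 at hc
      show sg e Q π hs i (E i c (π i x)) * y = sg e Q π hs i (E i c (π i x))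
      rw [(hE i).one (π i x) c hc (by rw [← map_mul, hx]), sg_pi e Q π hs hk]
      linear_combination (e i) * h
  · rintro ⟨i, c⟩
    have key : ∀ b : R, b * b = b → ((∃ x, b * sg e Q π hs i (E i c (π i x)) = b) ↔
        b * e i = b ∧ ∃ z : Q i, π i b * E i c z = π i b) := by
      intro b hb
      constructor
      · rintro ⟨x, hx⟩
        constructor
        · have h1 := e_sg e Q π hs he i (E i c (π i x))
          calc b * e i = (b * sg e Q π hs i (E i c (π i x))) * e i := by rw [hx]
            _ = b * (e i * sg e Q π hs i (E i c (π i x))) := by ring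
            _ = b := by rw [h1, hx]
        · refine ⟨π i x, ?_⟩
          have h1 := congrArg (π i) hx
          rw [map_mul, pi_sg e Q π hs hk he] at h1
          exact h1
      · rintro ⟨h1, z, hz⟩
        obtain ⟨x, rfl⟩ := hs i z
        refine ⟨x, ?_⟩
        rw [← sg_pmul e Q π hs hk, hz, sg_pi e Q π hs hk, mul_comm]
        exact h1
    by_cases hc : c.1 = 0
    · refine dp_congr iR ?_ (dp_zero iR DPC (e i))
      intro v
      refine and_congr_right fun hv => ?_
      change _ ↔ ∃ x, v 0 * sg e Q π hs i (E i c (π i x)) = v 0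
      rw [key (v 0) hv]
      constructor
      · intro h
        refine ⟨h, 0, ?_⟩
        rw [(hE i).zero c hc, mul_one]
      · exact fun h => h.1
    · refine dp_congr iR ?_ (dp_ideal iR DPC (e i) (orderOf c.1))
      intro v
      refine and_congr_right fun hv => ?_
      change _ ↔ ∃ x, v 0 * sg e Q π hs i (E i c (π i x)) = v 0
      rw [key (v 0) hv]
      refine and_congr_right fun hv' => ?_
      have hv2 : π i (v 0) * π i (v 0) = π i (v 0) := by rw [← map_mul, hv]
      rw [(hE i).ideal c (π i (v 0)) hc hv2]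
      have up : ∀ a : R, π i (a * v 0) = π i (v 0) → a * v 0 = v 0 := by
        intro a ha
        have h1 := e_eq e Q π hk i _ _ ha
        calc a * v 0 = a * (v 0 * e i) := by rw [hv']
          _ = e i * (a * v 0) := by ring
          _ = e i * v 0 := h1
          _ = v 0 := by rw [mul_comm, hv']
      constructor
      · rintro ⟨x, hx1, hx2⟩
        refine ⟨π i x, ?_, ?_⟩
        · rw [← map_pow, ← map_mul, hx1]
        · intro k hk1 hk2
          obtain ⟨y, hy⟩ := hx2 k hk1 hk2
          refine ⟨π i y, ?_⟩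
          rw [← map_pow, ← map_one (π i), ← map_sub, ← map_mul, ← map_mul, hy]
      · rintro ⟨z, hz1, hz2⟩
        obtain ⟨x, rfl⟩ := hs i z
        refine ⟨x, ?_, ?_⟩
        · apply up
          rw [map_mul, map_pow]
          exact hz1
        · intro k hk1 hk2
          obtain ⟨w, hw⟩ := hz2 k hk1 hk2
          obtain ⟨y, rfl⟩ := hs i w
          refine ⟨y, ?_⟩
          apply up
          rw [map_mul, map_mul, map_sub, map_pow, map_one]
          exact hw

end fin

theorem kc_finite (q m : ℕ) [Fact q.Prime] (hm : 2 ≤ m) : Finite (KC q m) := by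
  classical
  have hf : {c : AlgebraicClosure (ZMod q) | c ^ m = c}.Finite := by
    refine ((Polynomial.X ^ m - Polynomial.X :
      Polynomial (AlgebraicClosure (ZMod q))).roots.toFinset.finite_toSet).subset ?_
    intro c hc
    have hne : (Polynomial.X ^ m - Polynomial.X : Polynomial (AlgebraicClosure (ZMod q))) ≠ 0 := by
      intro h0
      have h1 := congrArg (fun f => Polynomial.coeff f m) h0
      simp only [Polynomial.coeff_sub, Polynomial.coeff_X_pow, if_true, Polynomial.coeff_zero] at h1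
      rw [Polynomial.coeff_X, if_neg (by omega)] at h1
      simp at h1
    have hc' : c ^ m = c := hc
    simp only [Multiset.mem_toFinset, Finset.mem_coe, Polynomial.mem_roots hne,
      Polynomial.IsRoot.def, Polynomial.eval_sub, Polynomial.eval_pow, Polynomial.eval_X]
    rw [hc', sub_self]
  exact hf.to_subtype

theorem RND (RNA : S_RNA) (DPC : S_DPC) : S_RND := by
  classical
  intro m hm R iR _ hR
  obtain ⟨k, rfl⟩ : ∃ k, m = k + 2 := ⟨m - 2, by omega⟩
  set N : ℕ := 2 ^ (k + 2) - 2 with hN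
  have h2k : 2 < 2 ^ (k + 2) := by
    have : 1 ≤ 2 ^ k := Nat.one_le_two_pow
    rw [pow_add]
    omega
  have hN0 : N ≠ 0 := by omega
  have hNR : (N : R) = 0 := by
    rw [hN, Nat.cast_sub (by omega)]
    push_cast
    rw [hR 2, sub_self]
  -- the idempotents
  let e : ℕ → R := fun q => 1 - (q : R) ^ (k + 1)
  have hid : ∀ x : R, x ^ (k + 1) * x ^ (k + 1) = x ^ (k + 1) := by
    intro x
    have h := hR x
    calc x ^ (k + 1) * x ^ (k + 1) = x ^ (k + 2) * x ^ k := by ring
      _ = x * x ^ k := by rw [h]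
      _ = x ^ (k + 1) := by ring
  have hee : ∀ q, e q * e q = e q := by
    intro q
    have := hid (q : R)
    show (1 - (q : R) ^ (k + 1)) * (1 - (q : R) ^ (k + 1)) = 1 - (q : R) ^ (k + 1)
    linear_combination this
  have heq : ∀ q : ℕ, e q * (q : R) = 0 := by
    intro q
    have := hR (q : R)
    show (1 - (q : R) ^ (k + 1)) * (q : R) = 0
    linear_combination - this
  have hmem : ∀ (q : ℕ) (x : R), x ∈ Ideal.span {(q : R)} ↔ e q * x = 0 := by
    intro q x
    rw [Ideal.mem_span_singleton']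
    constructor
    · rintro ⟨y, rfl⟩
      linear_combination y * heq q
    · intro h
      refine ⟨x * (q : R) ^ k, ?_⟩
      have h' : (1 - (q : R) ^ (k + 1)) * x = 0 := h
      linear_combination - h'
  let ι : Type := {q : ℕ // q.Prime ∧ q ∣ N ∧ e q ≠ 0}
  have hfin : Finite ι := by
    refine Set.Finite.to_subtype (s := {q : ℕ | q.Prime ∧ q ∣ N ∧ e q ≠ 0}) ?_
    refine (Finset.finite_toSet (Finset.range (N + 1))).subset ?_
    rintro q ⟨-, hq, -⟩
    have := Nat.le_of_dvd (Nat.pos_of_ne_zero hN0) hq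
    simp only [Finset.coe_range, Set.mem_Iio]
    omega
  let p : ι → ℕ := fun i => i.1
  haveI hp : ∀ i : ι, Fact (p i).Prime := fun i => ⟨i.2.1⟩
  let Q : ι → Type := fun i => R ⧸ Ideal.span {((p i : ℕ) : R)}
  let π : ∀ i : ι, R →+* Q i := fun i => Ideal.Quotient.mk _
  have hs : ∀ i, Function.Surjective (π i) := fun i => Ideal.Quotient.mk_surjective
  have hk : ∀ i x, π i x = 0 ↔ e (p i) * x = 0 := by
    intro i x
    rw [← hmem]
    exact Ideal.Quotient.eq_zero_iff_mem
  have ho : ∀ i j : ι, i ≠ j → e (p i) * e (p j) = 0 := by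
    intro i j hij
    have hne : p i ≠ p j := fun h => hij (Subtype.ext h)
    have hco : IsCoprime ((p i : ℕ) : ℤ) ((p j : ℕ) : ℤ) :=
      Nat.isCoprime_iff_coprime.2 ((Nat.coprime_primes i.2.1 j.2.1).2 hne)
    obtain ⟨a, b, hab⟩ := hco
    have hab' : (a : R) * ((p i : ℕ) : R) + (b : R) * ((p j : ℕ) : R) = 1 := by
      have := congrArg (fun z : ℤ => (z : R)) hab
      push_cast at this
      exact this
    have h1 := heq (p i)
    have h2 := heq (p j)
    linear_combination (- (e (p i) * e (p j))) * hab' + (a : R) * (e (p j)) * h1 +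
      (b : R) * (e (p i)) * h2
  have ht : ∀ x : R, (∀ i : ι, e (p i) * x = 0) → x = 0 := by
    intro x hx
    have hx' : ∀ q : ℕ, q.Prime → q ∣ N → x = (q : R) ^ (k + 1) * x := by
      intro q hq hqN
      have h : e q * x = 0 := by
        by_cases h0 : e q = 0
        · rw [h0, zero_mul]
        · exact hx ⟨q, hq, hqN, h0⟩
      have h' : (1 - (q : R) ^ (k + 1)) * x = 0 := h
      linear_combination h'
    have hall : ∀ a : ℕ, a ∣ N → x = (a : R) ^ (k + 1) * x := by
      intro a
      induction a using induction_on_primes with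
      | zero =>
        intro h
        exact absurd (Nat.eq_zero_of_zero_dvd h) hN0
      | one =>
        intro _
        simp
      | prime_mul q a hq ih =>
        intro h
        have h1 := hx' q hq ((Dvd.intro _ rfl).trans h)
        have h2 := ih ((Dvd.intro_left _ rfl).trans h)
        push_cast
        calc x = (a : R) ^ (k + 1) * x := h2
          _ = (a : R) ^ (k + 1) * ((q : R) ^ (k + 1) * x) := by rw [← h1]
          _ = _ := by ring
    have h := hall N dvd_rfl
    rw [h, hNR, zero_pow (Nat.succ_ne_zero k), zero_mul]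
  have hE : ∀ i : ι, ∃ ev : KC (p i) (k + 2) → Q i → Q i, EvD (p i) (k + 2) ev := by
    intro i
    haveI : Nontrivial (Q i) := by
      refine nontrivial_of_ne (π i 1) 0 ?_
      rw [Ne, hk, mul_one]
      exact i.2.2.2
    haveI : CharP (Q i) (p i) := by
      rw [CharP.charP_iff_prime_eq_zero (hp i).out]
      have : (((p i : ℕ)) : Q i) = π i ((p i : ℕ) : R) := (map_natCast (π i) _).symm
      rw [this, hk]
      exact heq (p i)
    haveI : Countable (Q i) := (hs i).countable
    refine RNA (p i) (k + 2) hm (Q i) ?_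
    intro y
    obtain ⟨x, rfl⟩ := hs i y
    rw [← map_pow, hR]
  choose E hE using hE
  haveI : ∀ i : ι, Finite (KC (p i) (k + 2)) := fun i => kc_finite (p i) (k + 2) hm
  exact ⟨Σ i : ι, KC (p i) (k + 2), inferInstance, _, _, _, _, _,
    asm p (k + 2) (fun i => e (p i)) Q π DPC hm hs hk (fun i => hee (p i)) ho ht E hE⟩

end Pool.Agent.N42.VB.RND
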